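import Mathlib
import Pool.Agent.H48.GM.LengthGame
import Pool.Graph.R_pool_sql_team_seeded_63374d34.Results.MP_154526_nt.ExceptionalTuples

set_option autoImplicit false

/-!
# Relations between multiple zeta values and the game of the digits of the arguments: one rule for all patterns

A pattern is an index whose entries are the linear forms `b + u_1 s_1 + … + u_k s_k` in variable arguments `s_j`, for
example `(s_1, 3, s_1 + s_2)` or `(5, 1, s_1)`. From the library (`ExceptionalTuples`): for given patterns `w_1, …, w_r` and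
constants `x_1, …, x_t` all but `K N ^ (k - 1)` tuples `s ∈ [N, κ N] ^ k` have the property that EVERY polynomial relation of
degree at most `d` and with coefficients at most `C ^ N` between the `x_j` and the multiple zeta values `ζ(w_i(s))` is a
consequence of the stuffle product and of the relations between the `x_j` and the values of the constant front parts.

Here the digits of the `k` numbers `s_1, …, s_k` are written down one after the other, the leading digits first. There is ONE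
rule, which names a digit after every finite sequence of digits, for all `k`, all finite families of patterns, all
families of constants from a given countable set, all degrees, all heights `H ^ (s_1 + … + s_k)` and all bounds `κ` for
the ratios of the `s_j`: if more than `(k - 1) D + (1 + ε) log_b D + C` of the `k D` digits are the ones named by the rule, the
others being arbitrary, then all relations are consequences as above. For `k = 1` only `(1 + ε) log_b D + C` of the `D`
digits of the argument have to be chosen according to the rule.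
-/

namespace Pool.Agent.Results.MP_154526_nt.ArgumentGame

open Pool.Agent.H48.GM Real
open Pool.Agent.Results.MP_154526_nt.ExceptionalTuples (Letter AdmissiblePattern index mzv IsConsequence exceptional)

/-- The `k` numbers `s_i = ∑_{j < D} z_(k j + i) b ^ (D - 1 - j)` with the digits `z_0, z_1, …`: the leading digits
`z_0, …, z_(k-1)` of the `k` numbers come first, then the `k` next digits, and so on. -/
def tuple (b k D : ℕ) (z : ℕ → ℕ) (i : Fin k) : ℕ :=
  ∑ j ∈ Finset.range D, z (k * j + i) * b ^ (D - 1 - j)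

/-- Every polynomial relation of degree at most `d` with integral coefficients of absolute value at most `B` between
the numbers `x` and the multiple zeta values of the patterns `w` at the tuple `s` is a consequence of the stuffle product
and of the relations between `x` and the multiple zeta values of the fronts. -/
def OnlyConsequences {k r t : ℕ} (w : Fin r → List (Letter k)) (x : Fin t → ℂ) (d : ℕ) (B : ℝ) (s : Fin k → ℕ) : Prop :=
  ∀ P : MvPolynomial (Fin t ⊕ Fin r) ℤ, P.totalDegree ≤ d → (∀ m, |((P.coeff m : ℤ) : ℝ)| ≤ B) →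
    MvPolynomial.aeval (Sum.elim x fun i => ((mzv (index s (w i)) : ℝ) : ℂ)) P = 0 → IsConsequence w x s P

theorem digits_inj {b D : ℕ} {x y : ℕ → ℕ} (hx : ∀ j, x j < b) (hy : ∀ j, y j < b)
    (h : ∑ j ∈ Finset.range D, x j * b ^ (D - 1 - j) = ∑ j ∈ Finset.range D, y j * b ^ (D - 1 - j)) :
    ∀ j < D, x j = y j := by
  have key : ∀ z : ℕ → ℕ, ∀ hz : ∀ j, z j < b, ∑ j ∈ Finset.range D, z j * b ^ (D - 1 - j) =
      (finFunctionFinEquiv (fun j : Fin D => (⟨z (D - 1 - j), hz _⟩ : Fin b)) : ℕ) := by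
    intro z hz
    rw [finFunctionFinEquiv_apply, ← Finset.sum_range_reflect,
      Finset.sum_range (fun j => z (D - 1 - j) * b ^ (D - 1 - (D - 1 - j)))]
    refine Finset.sum_congr rfl fun j _ => ?_
    have : D - 1 - (D - 1 - (j : ℕ)) = j := by have := j.isLt; omega
    rw [this]
  rw [key x hx, key y hy] at h
  have h1 := finFunctionFinEquiv.injective (Fin.ext h)
  intro j hj
  have h2 := congrArg Fin.val (congrFun h1 ⟨D - 1 - j, by omega⟩)
  simp only at h2
  have h3 : D - 1 - (D - 1 - j) = j := by omega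
  rwa [h3] at h2

theorem tuple_inj {b k D : ℕ} {x y : ℕ → ℕ} (hx : ∀ j, x j < b) (hy : ∀ j, y j < b)
    (h : tuple b k D x = tuple b k D y) : ∀ n < k * D, x n = y n := by
  intro n hn
  have hk : 0 < k := by
    by_contra hk
    have : k = 0 := by omega
    rw [this, zero_mul] at hn
    omega
  have h1 := congrFun h ⟨n % k, Nat.mod_lt _ hk⟩
  have h2 := digits_inj (x := fun j => x (k * j + n % k)) (y := fun j => y (k * j + n % k))
    (fun _ => hx _) (fun _ => hy _) h1 (n / k) (by
      rw [Nat.div_lt_iff_lt_mul hk]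
      rwa [Nat.mul_comm] at hn)
  simp only [Nat.div_add_mod] at h2
  exact h2

theorem tuple_lt {b k D : ℕ} (hb : 2 ≤ b) {z : ℕ → ℕ} (hz : ∀ j, z j < b) (i : Fin k) :
    tuple b k D z i < b ^ D := by
  unfold tuple
  induction D with
  | zero => simp
  | succ D ih =>
    rw [Finset.sum_range_succ]
    have e1 : ∀ j ∈ Finset.range D, z (k * j + i) * b ^ (D + 1 - 1 - j) = (z (k * j + i) * b ^ (D - 1 - j)) * b := by
      intro j hj
      rw [Finset.mem_range] at hj
      have : D + 1 - 1 - j = D - 1 - j + 1 := by omega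
      rw [this, pow_succ, mul_assoc]
    rw [Finset.sum_congr rfl e1, ← Finset.sum_mul]
    have e2 : D + 1 - 1 - D = 0 := by omega
    rw [e2, pow_zero, mul_one, pow_succ]
    have := hz (k * D + i)
    nlinarith

theorem tuple_ge {b k D : ℕ} (hD : 1 ≤ D) {z : ℕ → ℕ} {i : Fin k} (h : z i ≠ 0) :
    b ^ (D - 1) ≤ tuple b k D z i := by
  unfold tuple
  refine le_trans ?_ (Finset.single_le_sum (f := fun j => z (k * j + i) * b ^ (D - 1 - j))
    (fun _ _ => Nat.zero_le _) (Finset.mem_range.mpr (show 0 < D by omega)))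
  simp only [mul_zero, zero_add, Nat.sub_zero]
  exact Nat.le_mul_of_pos_left _ (Nat.pos_of_ne_zero h)

/-- the data of a family: `k`, `r`, `t`, then the patterns, the numbers of the constants, `d`, `κ`, the height -/
abbrev Index : Type :=
  Σ p : ℕ × ℕ × ℕ, (Fin p.2.1 → List (Letter p.1)) × (Fin p.2.2 → ℕ) × ℕ × ℕ × ℕ

/-- the words of exceptional tuples -/
def Bad (b : ℕ) (ξ : ℕ → ℂ) (D₀ : Index → ℕ) (i : Index) : Set (List ℕ) :=
  {u | ∃ D : ℕ, u.length = i.1.1 * D ∧ D₀ i ≤ D ∧ 1 ≤ D ∧ 1 ≤ i.1.1 ∧ (∀ l, AdmissiblePattern (i.2.1 l)) ∧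
    (∃ j < i.1.1, u.getD j 0 ≠ 0) ∧
    (∀ l m, tuple b i.1.1 D (fun n => u.getD n 0) l ≤ i.2.2.2.2.1 * tuple b i.1.1 D (fun n => u.getD n 0) m) ∧
    ¬ OnlyConsequences i.2.1 (fun l => ξ (i.2.2.1 l)) i.2.2.2.1
      ((i.2.2.2.2.2 : ℝ) ^ (∑ l, tuple b i.1.1 D (fun n => u.getD n 0) l)) (tuple b i.1.1 D fun n => u.getD n 0)}

theorem count (b : ℕ) (hb : 2 ≤ b) (ξ : ℕ → ℂ) (k r t : ℕ) (hk : 1 ≤ k) (w : Fin r → List (Letter k))
    (hw : ∀ i, AdmissiblePattern (w i)) (x : Fin t → ℕ) (d κ H : ℕ) :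
    ∃ K D₀ : ℕ, ∀ D : ℕ, D₀ ≤ D → 1 ≤ D → ∀ Y : Finset (Fin k → ℕ),
      (∀ s ∈ Y, (∀ i, s i < b ^ D) ∧ (∃ i, b ^ (D - 1) ≤ s i) ∧ (∀ i j, s i ≤ κ * s j) ∧
        ¬ OnlyConsequences w (fun l => ξ (x l)) d ((H : ℝ) ^ (∑ l, s l)) s) → Y.card ≤ K * (b ^ D) ^ (k - 1) := by
  classical
  -- `N = ⌊b ^ (D - 1) / (κ + 1)⌋`, all coordinates are between `N` and `2 b (κ + 1) N`
  obtain ⟨K, hK⟩ := ExceptionalTuples.result t w hw d (2 * b * (κ + 1))
  obtain ⟨N₀, hN₀⟩ := hK (((H : ℝ) + 1) ^ (k * (2 * b * (κ + 1)))) (fun l => ξ (x l))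
  refine ⟨K, (N₀ + 1) * (κ + 1) + 1, fun D hD hD1 Y hY => ?_⟩
  have hbpos : 1 ≤ b ^ (D - 1) := Nat.one_le_pow _ _ (by omega)
  set N := b ^ (D - 1) / (κ + 1) with hN
  have hDb : D ≤ b ^ (D - 1) := by
    have h1 : D - 1 < 2 ^ (D - 1) := Nat.lt_two_pow_self
    have h2 : 2 ^ (D - 1) ≤ b ^ (D - 1) := Nat.pow_le_pow_left hb _
    omega
  have hNN₀ : N₀ + 1 ≤ N := by
    rw [hN, Nat.le_div_iff_mul_le (by omega)]
    omega
  have hN2 : b ^ (D - 1) < (N + 1) * (κ + 1) := by
    have := Nat.lt_mul_div_succ (b ^ (D - 1)) (show 0 < κ + 1 by omega)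
    rw [← hN] at this
    rw [Nat.mul_comm]
    exact this
  have hbD : b ^ D = b * b ^ (D - 1) := by
    rw [← pow_succ', Nat.sub_add_cancel hD1]
  -- the interval
  have hlow : ∀ s ∈ Y, ∀ i, N ≤ s i := fun s hs i => by
    obtain ⟨-, ⟨j, hj⟩, hκ, -⟩ := hY s hs
    have h1 := hκ j i
    have h2 : b ^ (D - 1) ≤ κ * s i := hj.trans h1
    rw [hN]
    calc b ^ (D - 1) / (κ + 1) ≤ ((κ + 1) * s i) / (κ + 1) := Nat.div_le_div_right (by nlinarith)
      _ = s i := Nat.mul_div_cancel_left _ (by omega)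
  have hup : ∀ s ∈ Y, ∀ i, s i ≤ 2 * b * (κ + 1) * N := fun s hs i => by
    obtain ⟨h1, -⟩ := hY s hs
    have h2 := (h1 i).le
    rw [hbD] at h2
    have h3 : (N + 1) * (κ + 1) ≤ 2 * N * (κ + 1) := Nat.mul_le_mul_right _ (by omega)
    have h4 : b * b ^ (D - 1) ≤ b * (2 * N * (κ + 1)) := Nat.mul_le_mul_left _ (hN2.le.trans h3)
    calc s i ≤ b * (2 * N * (κ + 1)) := h2.trans h4
      _ = 2 * b * (κ + 1) * N := by ring
  have hsub : (Y : Set (Fin k → ℕ)) ⊆ exceptional w (fun l => ξ (x l)) d (2 * b * (κ + 1)) N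
      ((((H : ℝ) + 1) ^ (k * (2 * b * (κ + 1)))) ^ N) := by
    intro s hs
    have hs : s ∈ Y := hs
    obtain ⟨-, -, -, h4⟩ := hY s hs
    unfold OnlyConsequences at h4
    push Not at h4
    obtain ⟨P, hP1, hP2, hP3, hP4⟩ := h4
    refine ⟨fun j => ⟨hlow s hs j, hup s hs j⟩, P, hP1, fun m => (hP2 m).trans ?_, hP3, hP4⟩
    have hH : (0 : ℝ) ≤ H := Nat.cast_nonneg _
    have hsum : ∑ l, s l ≤ k * (2 * b * (κ + 1)) * N := by
      refine (Finset.sum_le_card_nsmul _ _ _ fun l _ => hup s hs l).trans ?_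
      rw [Finset.card_univ, Fintype.card_fin, smul_eq_mul]
      exact (Nat.mul_assoc _ _ _).ge
    calc (H : ℝ) ^ (∑ l, s l) ≤ ((H : ℝ) + 1) ^ (∑ l, s l) := by gcongr; linarith
      _ ≤ ((H : ℝ) + 1) ^ (k * (2 * b * (κ + 1)) * N) := pow_le_pow_right₀ (by linarith) hsum
      _ = (((H : ℝ) + 1) ^ (k * (2 * b * (κ + 1)))) ^ N := by rw [pow_mul]
  have hfin : (exceptional w (fun l => ξ (x l)) d (2 * b * (κ + 1)) N
      ((((H : ℝ) + 1) ^ (k * (2 * b * (κ + 1)))) ^ N)).Finite := by
    refine (Set.Finite.pi' (t := fun _ : Fin k => Set.Icc N (2 * b * (κ + 1) * N)) fun _ => Set.finite_Icc _ _).subset ?_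
    intro s hs j
    exact ⟨(hs.1 j).1, (hs.1 j).2⟩
  have h5 := Set.ncard_le_ncard hsub hfin
  rw [Set.ncard_coe_finset] at h5
  refine h5.trans ((hN₀ N (by omega)).trans ?_)
  refine Nat.mul_le_mul_left _ (Nat.pow_le_pow_left ?_ _)
  rw [hN]
  refine (Nat.div_le_self _ _).trans ?_
  exact Nat.pow_le_pow_right (by omega) (by omega)

theorem getD_play (z : ℕ → ℕ) {n m : ℕ} (h : n < m) : (play z m).getD n 0 = z n := by
  unfold play
  rw [List.getD_eq_getElem?_getD, List.getElem?_map, List.getElem?_range h]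
  rfl

theorem tuple_congr {b k D : ℕ} {x y : ℕ → ℕ} (h : ∀ n < k * D, x n = y n) : tuple b k D x = tuple b k D y := by
  funext i
  unfold tuple
  refine Finset.sum_congr rfl fun j hj => ?_
  rw [Finset.mem_range] at hj
  rw [h]
  have := i.isLt
  calc k * j + i < k * j + k := by omega
    _ = k * (j + 1) := by ring
    _ ≤ k * D := Nat.mul_le_mul_left _ hj

/-- **One rule for all patterns.** Let `b ≥ 2` be a base and `ξ_0, ξ_1, …` any sequence of complex numbers, for instance all
algebraic numbers, or all the numbers `π`, `log 2`, `ζ(s_1, …, s_r)`. There is a rule `σ`, which names a digit after every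
finite sequence of digits, such that the following holds for all `k ≥ 1`, all finite families `w` of admissible patterns
in `k` variables, all finite families `x` of the `ξ_j`, all `d`, `κ`, `H` and all `ε > 0`, with a constant `C` depending on these.

Let `s_1, …, s_k` be the numbers with the base `b` digits `z_0, z_1, …, z_(k D - 1)` (leading digits first), of at most `D`
digits, one of them of exactly `D` digits, with ratios at most `κ`. If more than `(k - 1) D + (1 + ε) log_b D + C` of the digits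
are the ones named by the rule (the other ones being arbitrary), then every polynomial relation of degree at most `d`
with integral coefficients at most `H ^ (s_1 + … + s_k)` between the `x` and the multiple zeta values
`ζ(w_1(s)), …, ζ(w_r(s))` is a consequence of the stuffle product and of the relations between the `x` and the multiple
zeta values of the (constant) fronts of the patterns. -/
theorem result (b : ℕ) (hb : 2 ≤ b) (ξ : ℕ → ℂ) :
    ∃ σ : List ℕ → ℕ, (∀ u, σ u < b) ∧
      ∀ (k r t : ℕ), 1 ≤ k → ∀ w : Fin r → List (Letter k), (∀ i, AdmissiblePattern (w i)) →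
      ∀ (x : Fin t → ℕ) (d κ H : ℕ) (ε : ℝ), 0 < ε → ∃ C : ℝ,
        ∀ z : ℕ → ℕ, (∀ j, z j < b) → ∀ D : ℕ, 1 ≤ D → (∃ j < k, z j ≠ 0) →
          (∀ i j, tuple b k D z i ≤ κ * tuple b k D z j) →
          ((k : ℝ) - 1) * D + (1 + ε) * logb b D + C < moves σ z (k * D) →
          OnlyConsequences w (fun i => ξ (x i)) d ((H : ℝ) ^ (∑ i, tuple b k D z i)) (tuple b k D z) := by
  classical
  have hcount : ∀ i : Index, ∃ K D₀ : ℕ, 1 ≤ i.1.1 → (∀ l, AdmissiblePattern (i.2.1 l)) → ∀ D : ℕ, D₀ ≤ D → 1 ≤ D →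
      ∀ Y : Finset (Fin i.1.1 → ℕ), (∀ s ∈ Y, (∀ l, s l < b ^ D) ∧ (∃ l, b ^ (D - 1) ≤ s l) ∧
        (∀ l m, s l ≤ i.2.2.2.2.1 * s m) ∧ ¬ OnlyConsequences i.2.1 (fun l => ξ (i.2.2.1 l)) i.2.2.2.1
          ((i.2.2.2.2.2 : ℝ) ^ (∑ l, s l)) s) → Y.card ≤ K * (b ^ D) ^ (i.1.1 - 1) := by
    rintro ⟨⟨k, r, t⟩, w, x, d, κ, H⟩
    by_cases h : 1 ≤ k ∧ ∀ l, AdmissiblePattern (w l)
    · obtain ⟨K, D₀, hK⟩ := count b hb ξ k r t h.1 w h.2 x d κ H
      exact ⟨K, D₀, fun _ _ => hK⟩
    · exact ⟨0, 0, fun h1 h2 => absurd ⟨h1, h2⟩ h⟩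
  choose K D₀ hK using hcount
  obtain ⟨σ, hσb, hσ⟩ := length_digits (ι := Index) hb (Bad b ξ D₀)
    (fun i n => ((K i : ℝ) + 1) * ((b : ℝ) ^ (n / i.1.1)) ^ (i.1.1 - 1)) (by
      intro i n
      have : (0 : ℝ) < b := by exact_mod_cast (by omega : 0 < b)
      positivity) (by
      rintro ⟨⟨k, r, t⟩, w, x, d, κ, H⟩ n hn
      simp only
      by_cases hcase : ∃ D, n = k * D ∧ D₀ ⟨⟨k, r, t⟩, w, x, d, κ, H⟩ ≤ D ∧ 1 ≤ D ∧ 1 ≤ k ∧
          ∀ l, AdmissiblePattern (w l)
      · obtain ⟨D, rfl, hD0, hD1, hk, hw⟩ := hcase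
        rw [Nat.mul_div_cancel_left _ (by omega)]
        set S := {u : List ℕ | u.length = k * D ∧ (∀ d ∈ u, d < b) ∧
          u ∈ Bad b ξ D₀ ⟨⟨k, r, t⟩, w, x, d, κ, H⟩} with hS
        have hSfin : S.Finite := (words_finite b (k * D)).subset fun u hu => ⟨hu.1, hu.2.1⟩
        let Y : Finset (Fin k → ℕ) := hSfin.toFinset.image fun u => tuple b k D fun n => u.getD n 0
        have hdig : ∀ u ∈ S, ∀ j, u.getD j 0 < b := by
          intro u hu j
          rw [List.getD_eq_getElem?_getD]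
          rcases h : u[j]? with _ | a
          · simp only [Option.getD_none]
            omega
          · simp only [Option.getD_some]
            exact hu.2.1 a (List.mem_of_getElem? h)
        have hYc := hK ⟨⟨k, r, t⟩, w, x, d, κ, H⟩ hk hw D hD0 hD1 Y (by
          intro s hs
          rw [Finset.mem_image] at hs
          obtain ⟨u, hu, rfl⟩ := hs
          rw [hSfin.mem_toFinset] at hu
          have hd := hdig u hu
          obtain ⟨hlen, -, D', hD', -, -, -, -, ⟨j, hj, hj0⟩, h2, h3⟩ := hu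
          have hDD : D' = D := by
            have h4 : k * D = k * D' := hlen.symm.trans hD'
            exact (Nat.eq_of_mul_eq_mul_left (by omega) h4).symm
          subst hDD
          exact ⟨fun l => tuple_lt hb hd l, ⟨⟨j, hj⟩, tuple_ge hD1 (i := ⟨j, hj⟩) hj0⟩, h2, h3⟩)
        have hinj : Set.InjOn (fun u : List ℕ => tuple b k D fun n => u.getD n 0) (hSfin.toFinset : Set (List ℕ)) := by
          intro u hu v hv huv
          rw [Finset.mem_coe, hSfin.mem_toFinset] at hu hv
          have h4 := tuple_inj (hdig u hu) (hdig v hv) huv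
          apply List.ext_getElem (hu.1.trans hv.1.symm)
          intro n h5 h6
          have h7 := h4 n (by rw [← hu.1]; exact h5)
          rwa [List.getD_eq_getElem _ _ h5, List.getD_eq_getElem _ _ h6] at h7
        have h8 : S.ncard = Y.card := by
          rw [Set.ncard_eq_toFinset_card _ hSfin, Finset.card_image_of_injOn hinj]
        rw [h8]
        have h9 : (Y.card : ℝ) ≤ (K ⟨⟨k, r, t⟩, w, x, d, κ, H⟩ : ℝ) * ((b : ℝ) ^ D) ^ (k - 1) := by
          exact_mod_cast hYc
        refine h9.trans ?_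
        have hb0 : (0 : ℝ) ≤ b := Nat.cast_nonneg _
        have : (0 : ℝ) ≤ ((b : ℝ) ^ D) ^ (k - 1) := by positivity
        linarith
      · have hempty : {u : List ℕ | u.length = n ∧ (∀ d ∈ u, d < b) ∧
            u ∈ Bad b ξ D₀ ⟨⟨k, r, t⟩, w, x, d, κ, H⟩} = ∅ := by
          rw [Set.eq_empty_iff_forall_notMem]
          rintro u ⟨hlen, -, D, h1, h2, h3, h4, h5, -⟩
          exact hcase ⟨D, hlen.symm.trans h1, h2, h3, h4, h5⟩
        rw [hempty, Set.ncard_empty]
        have hb0 : (0 : ℝ) ≤ b := Nat.cast_nonneg _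
        push_cast
        positivity)
  refine ⟨σ, hσb, fun k r t hk w hw x d κ H ε hε => ?_⟩
  obtain ⟨C, hC⟩ := hσ ⟨⟨k, r, t⟩, w, x, d, κ, H⟩ ε hε
  have hb' : (2 : ℝ) ≤ b := by exact_mod_cast hb
  have hlb : 0 < log (b : ℝ) := log_pos (by linarith)
  set Kr : ℝ := ((K ⟨⟨k, r, t⟩, w, x, d, κ, H⟩ : ℕ) : ℝ) with hKr
  have hKr0 : 0 ≤ Kr := Nat.cast_nonneg _
  refine ⟨(|log (Kr + 1)| + (1 + ε) * log k + |C|) / log b + k * D₀ ⟨⟨k, r, t⟩, w, x, d, κ, H⟩,
    fun z hz D hD hne hκ hmov => ?_⟩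
  have hkr : (1 : ℝ) ≤ k := by exact_mod_cast hk
  have hDr : (1 : ℝ) ≤ D := by exact_mod_cast hD
  have hlogk : 0 ≤ log (k : ℝ) := log_nonneg hkr
  have hlogD : 0 ≤ log (D : ℝ) := log_nonneg hDr
  have hlogbD : 0 ≤ logb b D := div_nonneg hlogD hlb.le
  have hA : 0 ≤ (|log (Kr + 1)| + (1 + ε) * log k + |C|) / log b := by positivity
  -- the number of digits is large
  have hD0 : D₀ ⟨⟨k, r, t⟩, w, x, d, κ, H⟩ ≤ D := by
    by_contra hcon
    push Not at hcon
    have h1 : moves σ z (k * D) ≤ k * D := by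
      rw [moves_eq]
      exact (obeys_le_length σ _).trans (by rw [play_length])
    have h2 : (moves σ z (k * D) : ℝ) ≤ k * D := by exact_mod_cast h1
    have h3 : (k : ℝ) * D ≤ k * D₀ ⟨⟨k, r, t⟩, w, x, d, κ, H⟩ := by
      gcongr
    have h4 : 0 ≤ ((k : ℝ) - 1) * D := by
      apply mul_nonneg (by linarith) (by linarith)
    have h5 : 0 ≤ (1 + ε) * logb b D := mul_nonneg (by linarith) hlogbD
    linarith
  by_contra hcon
  refine hC z hz (k * D) (Nat.mul_pos hk hD) ?_ ⟨D, play_length z _, hD0, hD, hk, hw, ?_, ?_, ?_⟩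
  · simp only
    rw [Nat.mul_div_cancel_left _ (by omega : 0 < k)]
    have h1 := mul_lt_mul_of_pos_right hmov hlb
    have h2 : (((k : ℝ) - 1) * D + (1 + ε) * logb b D + ((|log (Kr + 1)| + (1 + ε) * log k + |C|) / log b +
        k * D₀ ⟨⟨k, r, t⟩, w, x, d, κ, H⟩)) * log b = ((k : ℝ) - 1) * D * log b + (1 + ε) * log D +
          (|log (Kr + 1)| + (1 + ε) * log k + |C|) + k * D₀ ⟨⟨k, r, t⟩, w, x, d, κ, H⟩ * log b := by
      rw [logb]
      field_simp
      ring
    rw [h2] at h1
    have h3 : log ((Kr + 1) * ((b : ℝ) ^ D) ^ (k - 1)) = log (Kr + 1) + ((k : ℝ) - 1) * D * log b := by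
      rw [log_mul (by positivity) (by positivity), ← pow_mul, log_pow, Nat.cast_mul, Nat.cast_sub hk, Nat.cast_one]
      ring
    have h4 : log ((k * D : ℕ) : ℝ) = log k + log D := by
      push_cast
      rw [log_mul (by positivity) (by positivity)]
    rw [h3, h4]
    have h5 : 0 ≤ (k : ℝ) * D₀ ⟨⟨k, r, t⟩, w, x, d, κ, H⟩ * log b := by positivity
    have h6 := le_abs_self (log (Kr + 1))
    have h7 := le_abs_self C
    have h8 : (1 + ε) * (log k + log D) = (1 + ε) * log k + (1 + ε) * log D := by ring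
    linarith
  · obtain ⟨j, hj, hj0⟩ := hne
    refine ⟨j, hj, ?_⟩
    rw [getD_play z (lt_of_lt_of_le hj (Nat.le_mul_of_pos_right _ hD))]
    exact hj0
  · have h1 : tuple b k D (fun n => (play z (k * D)).getD n 0) = tuple b k D z :=
      tuple_congr fun n hn => getD_play z hn
    simp only [h1]
    exact hκ
  · have h1 : tuple b k D (fun n => (play z (k * D)).getD n 0) = tuple b k D z :=
      tuple_congr fun n hn => getD_play z hn
    simp only [h1]
    exact hcon

end Pool.Agent.Results.MP_154526_nt.ArgumentGame
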