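import Pool.Agent.H65.MZ.BalFin

/-!
# The regularized double shuffle relations reduce all multiple zeta values to ballot words

`H0 p` is the part of weight `p` of `ℚ + x ℚ⟨x, y⟩ y` and `RDS p` the span of the regularized double
shuffle elements `reg (w_1 ш w_0 - w_1 * w_0)` of weight `p`. The question asks whether `RDS p` is
the space of all linear relations between multiple zeta values of weight `p`.

Theorem. Let `p ≥ 2`.
* `H0 p` is the sum of `RDS p` and of the span of the words `y_{k_1} ... y_{k_t}` of weight `p` with
  `k_1 ≥ 2` and `k_1 + ... + k_i ≤ 2 i` for `1 ≤ i ≤ t`. So modulo the double shuffle relations every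
  word is a linear combination of words of depth at least `p / 2`.
* The number of these words is the binomial coefficient `C (p - 2, ⌊(p - 2) / 2⌋)`, so the codimension
  of `RDS p` in `H0 p` (of dimension `2 ^ (p - 2)`) is at most `C (p - 2, ⌊(p - 2) / 2⌋)`, and this is
  at most `2 ^ (p - 2) / √(p - 1)`.

Proof. Let `φ` be a linear functional which vanishes at `RDS p` and at the ballot words. By induction
`φ` vanishes at the words of depth greater than `n`. For an index `c` and a word `v` of depth `n` the
terms of the shuffle product of `y_c` and `v` have depth greater than `n`; the terms of depth `n` in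
the stuffle product come from the ways to add the entries of `c` to entries of `v` at increasing
positions. So at the words of depth `n`, seen as monomials in `n` variables, `φ` kills all multiples
of the monomial quasi-symmetric polynomials without constant term; such a functional is
determined by its values at the monomials of ballot type (Aval, F. Bergeron, N. Bergeron).
-/

set_option autoImplicit false

open Module

namespace Pool.Agent.Results.MP_154526_nt.BallotWords

open Pool.Agent.H65.MZ

theorem result (p : ℕ) (hp : 2 ≤ p) :
    H0 p = RDS p ⊔ BalS p ∧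
    (∀ k, IsBallot p k → p ≤ 2 * k.length) ∧
    {k | IsBallot p k}.ncard = (p - 2).choose ((p - 2) / 2) ∧
    finrank ℚ (H0 p) = 2 ^ (p - 2) ∧
    2 ^ (p - 2) ≤ finrank ℚ (RDS p) + (p - 2).choose ((p - 2) / 2) ∧
    ((p - 2).choose ((p - 2) / 2) : ℝ) ≤ 2 ^ (p - 2) / √((p - 1 : ℕ) : ℝ) := by
  obtain ⟨n, rfl⟩ := Nat.exists_eq_add_of_le' hp
  rw [Nat.add_sub_cancel, show n + 2 - 1 = n + 1 by omega]
  refine ⟨H0_eq_ballot (by omega), fun k hk => hk.depth, (BC.ballot_card n).2, finrank_H0 n,
    finrank_ballot n, ?_⟩
  have h2 := BC.choose_half_sq_le n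
  have h3 : ((n + 1 : ℕ) : ℝ) * ((n.choose (n / 2) : ℕ) : ℝ) ^ 2 ≤ 4 ^ n := by
    exact_mod_cast h2
  have h4 : (0 : ℝ) < √((n + 1 : ℕ) : ℝ) := Real.sqrt_pos.2 (by positivity)
  rw [le_div_iff₀ h4]
  refine (pow_le_pow_iff_left₀ (by positivity) (by positivity) two_ne_zero).1 ?_
  rw [mul_pow, Real.sq_sqrt (by positivity), ← pow_mul, mul_comm n 2, pow_mul, mul_comm]
  norm_num at h3 ⊢
  exact h3

end Pool.Agent.Results.MP_154526_nt.BallotWords
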