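import Pool.Agent.H65.MZ.RankPent

/-!
# The exact rank of the double shuffle relations with `w_1 = y ^ m`

`H0 p` is the part of weight `p` of `ℚ + x ℚ⟨x, y⟩ y`, of dimension `2 ^ (p - 2)`, and `RDS p` the span
of the regularized double shuffle elements `reg (w_1 ш w_0 - w_1 * w_0)` of weight `p`. The question
asks whether `RDS p` is the space of all linear relations between multiple zeta values of weight
`p`. `YDS p` is the span of the elements with `w_1 = y ^ m`, `m ≥ 1`, and `YDSle j p` the span of those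
with `1 ≤ m ≤ j`. By Ihara, Kaneko and Zagier these relations are equivalent to the derivation
relations, whose rank they tabulate for small weights: 1, 2, 5, 10, 22, 44, 90, ...

Theorem. Let `e_i` be the coefficients of `∏ (1 - X ^ i)`, that is, `e_i = (-1) ^ k` if
`i = k (3 k - 1) / 2` for an integer `k`, and `e_i = 0` otherwise. For `p = n + 2 ≥ 2`
* `dim YDS p = 2 ^ n - 1 - e_(n + 1) - ∑_(i ≤ n) e_i 2 ^ (n - i)`;
* `dim (YDSle j p) = 2 ^ n - ε - [X ^ (n + 1)] (1 - X) / (1 - 2 X) (1 - X) ... (1 - X ^ j)` with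
  `(1 - X) / (1 - 2 X) = 1 + X + 2 X ^ 2 + 4 X ^ 3 + ...` and `ε = 1` if `j ≥ n + 1`, `ε = 0` otherwise;
* `dim YDS p ≥ 0.71 dim (H0 p) - 2`.

Proof. Let `φ` be the automorphism `x ↦ x + y`, `y ↦ - y` of `ℚ⟨x, y⟩`. Then
`reg (y ^ m * x φ (w)) = x φ (y ^ m * w)` for `w` in `ℚ⟨x, y⟩ y`, so `YDS p` is the image of the
augmentation ideal of the symmetric functions times that of the quasi-symmetric functions in
degree `p - 1`, and quasi-symmetric functions are free over symmetric functions; here this is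
proved with derivations on the dual side.
-/

set_option autoImplicit false

open Module

namespace Pool.Agent.Results.MP_154526_nt.DerivationRank

open Pool.Agent.H65.MZ

theorem result :
    (∀ p, YDS p ≤ RDS p) ∧
    (∀ n, finrank ℚ (H0 (n + 2)) = 2 ^ n) ∧
    (∀ n, (finrank ℚ (YDS (n + 2)) : ℤ) =
      2 ^ n - 1 - PowerSeries.coeff (n + 1) (PowerSeries.pentagonalSeries ℤ) -
        ∑ i ∈ Finset.range (n + 1),
          PowerSeries.coeff i (PowerSeries.pentagonalSeries ℤ) * 2 ^ (n - i)) ∧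
    (∀ j n, (finrank ℚ (YDSle j (n + 2)) : ℤ) = 2 ^ n - (if n + 1 ≤ j then 1 else 0) -
      PowerSeries.coeff (n + 1) ((1 - PowerSeries.X) * PowerSeries.mk (fun i => (2 : ℤ) ^ i) *
        ∏ i ∈ Finset.range j, (1 - PowerSeries.X ^ (i + 1)))) ∧
    ∀ n, 71 * 2 ^ n ≤ 100 * (finrank ℚ (YDS (n + 2)) + 2) :=
  ⟨YDS_le_RDS, finrank_H0, finrank_YDS, finrank_YDSle_eq, rank_ge⟩

end Pool.Agent.Results.MP_154526_nt.DerivationRank
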