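import Pool.Agent.H65.MZ.BalFin
import Pool.Agent.H65.MZ.Ker

/-!
# Almost all relations between multiple zeta values are finite double shuffle relations

`H0 p` is the part of weight `p` of `ℚ + x ℚ⟨x, y⟩ y`, of dimension `2 ^ (p - 2)`, `Z` the map to the
multiple zeta values, `Relations p` its kernel in `H0 p`, `RDS p` the span of the regularized double
shuffle elements, and `FDS p` the span of the finite double shuffle elements `u ш v - u * v` with
both words `u`, `v` admissible (no regularization). The question asks whether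
`RDS p = Relations p` for all `p`.

Theorem. Let `p ≥ 2`. Then `FDS p ⊆ RDS p`, `FDS p ⊆ Relations p` and
* `H0 p` is the sum of `FDS p` and of the span of the words `y_{k_1} ... y_{k_t}` of weight
  `p ≤ 2 t + 1` with `k_1 ≥ 2` and `k_{i + 1} + ... + k_t ≤ 2 (t - i)` for `1 ≤ i < t`;
* the number of these words is the binomial coefficient `C (p - 1, ⌊(p - 1) / 2⌋)`;
* so the codimension of `FDS p` in `H0 p` is at most `C (p - 1, ⌊(p - 1) / 2⌋)`, and `FDS p` contains
  all but a proportion `2 / √p` of the independent linear relations of weight `p`.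

Proof. Let `φ` be a linear functional which vanishes at `FDS p` and at the listed words. By induction
`φ` vanishes at the words of depth greater than `n`. For an admissible index `c` and an admissible
word `v` of depth `n` the terms of the shuffle product have depth greater than `n`; the terms of
depth `n` in the stuffle product come from the ways to add the entries of `c` to entries of `v` at
increasing positions. So at the words of depth `n`, read from right to left as monomials in `n`
variables, `φ` kills all multiples of the monomial quasi-symmetric polynomials whose last exponent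
is at least `2`. Such a functional is determined by its values at the monomials with exponents
`a_1 + ... + a_i ≤ i` for all `i` (`vanA`, after Aval, F. Bergeron and N. Bergeron).
-/

set_option autoImplicit false

open Module

namespace Pool.Agent.Results.MP_154526_nt.FiniteDoubleShuffleRank

open Pool.Agent.H65.MZ

theorem result (p : ℕ) (hp : 2 ≤ p) :
    (FDS p ≤ RDS p ∧ FDS p ≤ Relations p) ∧
    H0 p = FDS p ⊔ BalSF p ∧
    {k | IsBallotF p k}.ncard = (p - 1).choose ((p - 1) / 2) ∧
    finrank ℚ (H0 p) = 2 ^ (p - 2) ∧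
    2 ^ (p - 2) ≤ finrank ℚ (FDS p) + (p - 1).choose ((p - 1) / 2) ∧
    ((p - 1).choose ((p - 1) / 2) : ℝ) ≤ 2 / √p * 2 ^ (p - 2) ∧
    (1 - 2 / √p) * finrank ℚ (Relations p) ≤ finrank ℚ (FDS p) := by
  obtain ⟨n, rfl⟩ := Nat.exists_eq_add_of_le' hp
  rw [Nat.add_sub_cancel, show n + 2 - 1 = n + 1 by omega]
  have h0 := finrank_ballotF n
  have h1 : (((n + 1).choose ((n + 1) / 2) : ℕ) : ℝ) ≤ 2 / √((n + 2 : ℕ) : ℝ) * 2 ^ n := by
    have h2 := BC.choose_half_sq_le (n + 1)
    have h3 : ((n + 2 : ℕ) : ℝ) * (((n + 1).choose ((n + 1) / 2) : ℕ) : ℝ) ^ 2 ≤ 4 ^ (n + 1) := by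
      exact_mod_cast h2
    have h4 : (0 : ℝ) < √((n + 2 : ℕ) : ℝ) := Real.sqrt_pos.2 (by positivity)
    rw [div_mul_eq_mul_div, le_div_iff₀ h4]
    refine (pow_le_pow_iff_left₀ (by positivity) (by positivity) two_ne_zero).1 ?_
    rw [mul_pow, Real.sq_sqrt (by positivity)]
    calc _ ≤ (4 : ℝ) ^ (n + 1) := by linarith
      _ = _ := by rw [mul_pow, ← pow_mul, mul_comm n 2, pow_mul]; norm_num; ring
  refine ⟨⟨FDS_le_RDS _, FDS_le_Relations _⟩, H0_eq_ballotF (by omega), (BC.ballotF_card n).2,
    finrank_H0 n, h0, h1, ?_⟩
  rcases le_or_gt 0 (1 - 2 / √((n + 2 : ℕ) : ℝ)) with hs | hs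
  · have h5 : ((finrank ℚ (Relations (n + 2)) : ℕ) : ℝ) ≤ 2 ^ n := by
      have hf := finrank_H0 n
      have hfin : Module.Finite ℚ (H0 (n + 2)) := by
        apply FiniteDimensional.of_finrank_pos
        rw [finrank_H0]
        positivity
      have := Submodule.finrank_mono (inf_le_left : Relations (n + 2) ≤ H0 (n + 2))
      rw [hf] at this
      exact_mod_cast this
    have h6 : ((2 : ℝ)) ^ n ≤ finrank ℚ (FDS (n + 2)) + (n + 1).choose ((n + 1) / 2) := by
      exact_mod_cast h0
    refine le_trans (mul_le_mul_of_nonneg_left h5 hs) ?_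
    linarith
  · refine le_trans (mul_nonpos_of_nonpos_of_nonneg hs.le (Nat.cast_nonneg _)) (Nat.cast_nonneg _)

end Pool.Agent.Results.MP_154526_nt.FiniteDoubleShuffleRank
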